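import Pool.Agent.Y242.CS.Stm

/-! Curvature computations (part S_4 of the project CS of helper242). -/

set_option autoImplicit false

open Set Filter Topology Complex Metric

noncomputable section

namespace Pool.Agent.Y210.CS

open Y242.CS

theorem re_ab (a b : ℝ) : ((a : ℂ) + (b : ℂ) * I).re = a := by
  rw [add_re, ofReal_re, re_ofReal_mul, I_re, mul_zero, add_zero]

theorem im_ab (a b : ℝ) : ((a : ℂ) + (b : ℂ) * I).im = b := by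
  rw [add_im, ofReal_im, im_ofReal_mul, I_im, mul_one, zero_add]

/-- the derivative of `psi s` -/
def dpsi (s : ℝ) (u : ℂ) : ℂ := 1 - (s : ℂ) * (I / 10) * (4 / 5 - 19 / 10 * u + u ^ 2)

theorem hasDerivAt_psi (s : ℝ) (u : ℂ) : HasDerivAt (psi s) (dpsi s u) u := by
  unfold dpsi
  have h1 : HasDerivAt (fun u : ℂ => u) 1 u := hasDerivAt_id u
  have h2 : HasDerivAt (fun u : ℂ => 4 / 5 * u - 19 / 20 * u ^ 2 + u ^ 3 / 3)
      (4 / 5 * 1 - 19 / 20 * ((2 : ℕ) * u ^ (2 - 1) * 1) + (3 : ℕ) * u ^ (3 - 1) * 1 / 3) u :=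
    ((h1.const_mul (4 / 5 : ℂ)).sub ((h1.pow 2).const_mul (19 / 20 : ℂ))).add
      ((h1.pow 3).div_const 3)
  have h3 := h1.sub (h2.const_mul ((s : ℂ) * (I / 10)))
  refine (h3.congr_deriv ?_)
  push_cast
  ring

/-- the function `exp (psi (z⁻²) / 2)` -/
def EE (s : ℝ) (z : ℂ) : ℂ := exp (psi s (z⁻¹ ^ 2) / 2)

theorem EE_ne (s : ℝ) (z : ℂ) : EE s z ≠ 0 := exp_ne_zero _

theorem hasDerivAt_EE (s : ℝ) {z : ℂ} (hz : z ≠ 0) :
    HasDerivAt (EE s) (EE s z * (-(z⁻¹ ^ 3) * dpsi s (z⁻¹ ^ 2))) z := by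
  have h1 : HasDerivAt (fun z : ℂ => z⁻¹) (-(z ^ 2)⁻¹) z := hasDerivAt_inv hz
  have h2 : HasDerivAt (fun z : ℂ => z⁻¹ ^ 2) ((2 : ℕ) * z⁻¹ ^ (2 - 1) * -(z ^ 2)⁻¹) z := h1.pow 2
  have h3 := ((hasDerivAt_psi s (z⁻¹ ^ 2)).comp z h2).div_const 2
  have h4 := h3.cexp
  refine h4.congr_deriv ?_
  unfold EE
  push_cast
  simp only [Function.comp]
  have : (z ^ 2)⁻¹ = z⁻¹ ^ 2 := (inv_pow z 2).symm
  rw [this]
  ring

theorem deriv_eq (s : ℝ) {F : ℂ → ℂ}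
    (hF : ∀ z : ℂ, z ≠ 0 → HasDerivAt F (exp (psi s (z⁻¹ ^ 2) / 2)) z) {z : ℂ} (hz : z ≠ 0) :
    deriv F z = EE s z := (hF z hz).deriv

theorem deriv2_eq (s : ℝ) {F : ℂ → ℂ}
    (hF : ∀ z : ℂ, z ≠ 0 → HasDerivAt F (exp (psi s (z⁻¹ ^ 2) / 2)) z) {z : ℂ} (hz : z ≠ 0) :
    deriv (deriv F) z = EE s z * (-(z⁻¹ ^ 3) * dpsi s (z⁻¹ ^ 2)) := by
  have h1 : deriv F =ᶠ[𝓝 z] EE s := by
    filter_upwards [isOpen_ne.mem_nhds hz] with w hw
    exact deriv_eq s hF hw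
  rw [h1.deriv_eq]
  exact (hasDerivAt_EE s hz).deriv

theorem re_nonneg (s : ℝ) (hs : |s| ≤ 1) {u : ℂ} (hu : ‖u‖ = 1) :
    0 ≤ (1 - u * dpsi s u).re := by
  have h1 : u.re ^ 2 + u.im ^ 2 = 1 := by
    have := Complex.sq_norm u
    rw [hu, Complex.normSq_apply] at this
    nlinarith
  have h2 : (1 - u * dpsi s u).re =
      (1 - u.re) * (1 + s * u.im / 10 * (4 * u.re + 1 / 5)) := by
    have h3 : (1 - u * dpsi s u).re = 1 - u.re -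
        s / 10 * (4 / 5 * u.im - 19 / 5 * u.re * u.im + 3 * u.re ^ 2 * u.im - u.im ^ 3) := by
      unfold dpsi
      have e : u = (u.re : ℂ) + u.im * I := (re_add_im u).symm
      have e2 : 1 - u * (1 - (s : ℂ) * (I / 10) * (4 / 5 - 19 / 10 * u + u ^ 2)) =
          ((1 - u.re - s / 10 * (4 / 5 * u.im - 19 / 5 * u.re * u.im + 3 * u.re ^ 2 * u.im -
            u.im ^ 3) : ℝ) : ℂ) + ((-u.im + s / 10 * (4 / 5 * u.re - 19 / 10 * (u.re ^ 2 -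
            u.im ^ 2) + u.re ^ 3 - 3 * u.re * u.im ^ 2) : ℝ) : ℂ) * I := by
        conv_lhs => rw [e]
        push_cast
        have hI : I ^ 2 = -1 := I_sq
        have hI3 : I ^ 3 = -I := by rw [pow_succ, hI]; ring
        have hI4 : I ^ 4 = 1 := by rw [show (4 : ℕ) = 2 + 2 from rfl, pow_add, hI]; ring
        ring_nf
        rw [hI, hI3, hI4]
        ring
      rw [e2]
      exact re_ab _ _
    rw [h3]
    linear_combination (s * u.im / 10) * h1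
  rw [h2]
  have hc1 : |u.re| ≤ 1 := by rw [← hu]; exact Complex.abs_re_le_norm u
  have hd1 : |u.im| ≤ 1 := by rw [← hu]; exact Complex.abs_im_le_norm u
  have hc := abs_le.1 hc1
  have h5 : |s * u.im / 10 * (4 * u.re + 1 / 5)| ≤ 1 := by
    rw [abs_mul, abs_div, abs_mul]
    have h6 : |4 * u.re + 1 / 5| ≤ 5 := by
      rw [abs_le]
      constructor <;> linarith [hc.1, hc.2]
    have h7 : |s| * |u.im| ≤ 1 := mul_le_one₀ hs (abs_nonneg _) hd1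
    have h8 : |(10 : ℝ)| = 10 := abs_of_pos (by norm_num)
    rw [h8]
    have h9 : 0 ≤ |s| * |u.im| / 10 := by positivity
    calc |s| * |u.im| / 10 * |4 * u.re + 1 / 5| ≤ |s| * |u.im| / 10 * 5 :=
          mul_le_mul_of_nonneg_left h6 h9
      _ ≤ 1 := by linarith
  have h6 := (abs_le.1 h5).1
  exact mul_nonneg (by linarith [hc.2]) (by linarith)

theorem curv (s : ℝ) (hs : |s| ≤ 1) {F : ℂ → ℂ}
    (hF : ∀ z : ℂ, z ≠ 0 → HasDerivAt F (exp (psi s (z⁻¹ ^ 2) / 2)) z) {z : ℂ} (hz : ‖z‖ = 1) :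
    0 ≤ (1 + z * deriv (deriv F) z / deriv F z).re := by
  have hz0 : z ≠ 0 := by
    rintro rfl
    simp at hz
  rw [deriv_eq s hF hz0, deriv2_eq s hF hz0]
  have h1 : 1 + z * (EE s z * (-(z⁻¹ ^ 3) * dpsi s (z⁻¹ ^ 2))) / EE s z =
      1 - z⁻¹ ^ 2 * dpsi s (z⁻¹ ^ 2) := by
    have := EE_ne s z
    field_simp
    ring
  rw [h1]
  refine re_nonneg s hs ?_
  rw [norm_pow, norm_inv, hz]
  norm_num

theorem val_re (s : ℝ) : (EE s 1).re = Real.exp (1 / 2) * Real.cos (s * (11 / 1200)) := by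
  unfold EE psi
  rw [Complex.exp_re]
  have h1 : ((1 : ℂ)⁻¹ ^ 2 - (s : ℂ) * (I / 10) * (4 / 5 * (1 : ℂ)⁻¹ ^ 2 -
      19 / 20 * ((1 : ℂ)⁻¹ ^ 2) ^ 2 + ((1 : ℂ)⁻¹ ^ 2) ^ 3 / 3)) / 2 =
      ((1 / 2 : ℝ) : ℂ) + ((-(s * (11 / 1200)) : ℝ) : ℂ) * I := by
    push_cast
    rw [inv_one]
    ring
  rw [h1]
  simp only [add_re, mul_re, ofReal_re, I_re, mul_zero, ofReal_im, I_im, mul_one, sub_self,
    add_zero, add_im, mul_im, zero_add, Real.cos_neg]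

theorem val_im (s : ℝ) : (EE s 1).im = -(Real.exp (1 / 2) * Real.sin (s * (11 / 1200))) := by
  unfold EE psi
  rw [Complex.exp_im]
  have h1 : ((1 : ℂ)⁻¹ ^ 2 - (s : ℂ) * (I / 10) * (4 / 5 * (1 : ℂ)⁻¹ ^ 2 -
      19 / 20 * ((1 : ℂ)⁻¹ ^ 2) ^ 2 + ((1 : ℂ)⁻¹ ^ 2) ^ 3 / 3)) / 2 =
      ((1 / 2 : ℝ) : ℂ) + ((-(s * (11 / 1200)) : ℝ) : ℂ) * I := by
    push_cast
    rw [inv_one]
    ring
  rw [h1]
  simp only [add_re, mul_re, ofReal_re, I_re, mul_zero, ofReal_im, I_im, mul_one, sub_self,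
    add_zero, add_im, mul_im, zero_add, Real.sin_neg, mul_neg]

theorem dpsi_one (s : ℝ) : dpsi s ((1 : ℂ)⁻¹ ^ 2) = 1 + (s : ℂ) * (I / 100) := by
  unfold dpsi
  rw [inv_one]
  ring

theorem comb {F G : ℂ → ℂ}
    (hF : ∀ z : ℂ, z ≠ 0 → HasDerivAt F (exp (psi 1 (z⁻¹ ^ 2) / 2)) z)
    (hG : ∀ z : ℂ, z ≠ 0 → HasDerivAt G (exp (psi (-1) (z⁻¹ ^ 2) / 2)) z)
    (t : ℝ) (ht0 : 0 < t) (ht1 : t < 1) :
    deriv (fun z => (t : ℂ) * F z + (1 - t) * G z) 1 ≠ 0 ∧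
    (1 + deriv (deriv (fun z => (t : ℂ) * F z + (1 - t) * G z)) 1 /
      deriv (fun z => (t : ℂ) * F z + (1 - t) * G z) 1).re < 0 := by
  have hH : ∀ z : ℂ, z ≠ 0 → deriv (fun z => (t : ℂ) * F z + (1 - t) * G z) z =
      (t : ℂ) * EE 1 z + (1 - t) * EE (-1) z := by
    intro z hz
    exact (((hF z hz).const_mul (t : ℂ)).add ((hG z hz).const_mul ((1 : ℂ) - t))).deriv
  have hH2 : deriv (deriv (fun z => (t : ℂ) * F z + (1 - t) * G z)) 1 =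
      (t : ℂ) * (EE 1 1 * (-((1 : ℂ)⁻¹ ^ 3) * dpsi 1 ((1 : ℂ)⁻¹ ^ 2))) +
      (1 - t) * (EE (-1) 1 * (-((1 : ℂ)⁻¹ ^ 3) * dpsi (-1) ((1 : ℂ)⁻¹ ^ 2))) := by
    have h1 : deriv (fun z => (t : ℂ) * F z + (1 - t) * G z) =ᶠ[𝓝 1]
        fun z => (t : ℂ) * EE 1 z + (1 - t) * EE (-1) z := by
      filter_upwards [isOpen_ne.mem_nhds (one_ne_zero (α := ℂ))] with w hw
      exact hH w hw
    rw [h1.deriv_eq]
    exact (((hasDerivAt_EE 1 one_ne_zero).const_mul (t : ℂ)).add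
      ((hasDerivAt_EE (-1) one_ne_zero).const_mul ((1 : ℂ) - t))).deriv
  rw [hH 1 one_ne_zero, hH2, dpsi_one, dpsi_one]
  set x : ℝ := Real.exp (1 / 2) * Real.cos (11 / 1200) with hx
  set y : ℝ := Real.exp (1 / 2) * Real.sin (11 / 1200) with hy
  have hX : EE 1 1 = (x : ℂ) + ((-y : ℝ) : ℂ) * I := by
    apply Complex.ext
    · rw [val_re, one_mul, re_ab]
    · rw [val_im, one_mul, im_ab]
  have hY : EE (-1) 1 = (x : ℂ) + y * I := by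
    apply Complex.ext
    · rw [val_re, neg_one_mul, Real.cos_neg, re_ab]
    · rw [val_im, neg_one_mul, Real.sin_neg, im_ab, hy]
      ring
  have hx0 : 0 < x := mul_pos (Real.exp_pos _) (Real.cos_pos_of_mem_Ioo
    ⟨by linarith [Real.pi_gt_three], by linarith [Real.pi_gt_three]⟩)
  have hy0 : 0 < y := mul_pos (Real.exp_pos _) (Real.sin_pos_of_pos_of_lt_pi (by norm_num)
    (by linarith [Real.pi_gt_three]))
  have ha : (t : ℂ) * EE 1 1 + (1 - t) * EE (-1) 1 = (x : ℂ) + (((1 - 2 * t) * y : ℝ) : ℂ) * I := by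
    rw [hX, hY]
    push_cast
    ring
  have hane : (t : ℂ) * EE 1 1 + (1 - t) * EE (-1) 1 ≠ 0 := by
    intro h
    have h1 := congrArg Complex.re (ha.symm.trans h)
    rw [re_ab, zero_re] at h1
    linarith
  refine ⟨hane, ?_⟩
  have hb : (t : ℂ) * (EE 1 1 * (-((1 : ℂ)⁻¹ ^ 3) * (1 + ((1 : ℝ) : ℂ) * (I / 100)))) +
      (1 - t) * (EE (-1) 1 * (-((1 : ℂ)⁻¹ ^ 3) * (1 + ((-1 : ℝ) : ℂ) * (I / 100)))) =
      ((-x - y / 100 : ℝ) : ℂ) + ((-(1 - 2 * t) * y + (1 - 2 * t) * x / 100 : ℝ) : ℂ) * I := by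
    rw [hX, hY, inv_one]
    push_cast
    have hI : I ^ 2 = -1 := I_sq
    ring_nf
    rw [hI]
    ring
  rw [hb, ha] 
  rw [ha] at hane
  have h1 : (1 : ℂ) + (((-x - y / 100 : ℝ) : ℂ) +
      ((-(1 - 2 * t) * y + (1 - 2 * t) * x / 100 : ℝ) : ℂ) * I) /
      ((x : ℂ) + (((1 - 2 * t) * y : ℝ) : ℂ) * I) =
      (((-y / 100 : ℝ) : ℂ) + (((1 - 2 * t) * x / 100 : ℝ) : ℂ) * I) /
      ((x : ℂ) + (((1 - 2 * t) * y : ℝ) : ℂ) * I) := by
    rw [eq_div_iff hane, add_mul, div_mul_cancel₀ _ hane]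
    push_cast
    ring
  rw [h1, Complex.div_re, ← add_div]
  have hn : 0 < Complex.normSq ((x : ℂ) + (((1 - 2 * t) * y : ℝ) : ℂ) * I) :=
    Complex.normSq_pos.2 hane
  apply div_neg_of_neg_of_pos _ hn
  rw [re_ab, re_ab, im_ab, im_ab]
  have h2 : 0 < x * y * (t * (1 - t)) := by
    have : 0 < 1 - t := by linarith
    positivity
  nlinarith

theorem t : Y242.CS.S_4 := by
  intro F G hF hG
  exact ⟨fun z hz => curv 1 (by simp) hF hz, fun z hz => curv (-1) (by simp) hG hz,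
    fun t ht0 ht1 => comb hF hG t ht0 ht1⟩

end Pool.Agent.Y210.CS
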